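import Pool.Agent.Helper82.UP.Common

/-!
# Project UP (MP_d466de_nt): boxes, for the module NA
-/

set_option autoImplicit false

noncomputable section

namespace Pool.Agent.Helper82.UP

open Finset Polynomial
open Pool.Agent.Helper9.UP
open Pool.Agent.Helper9.TW (gm)

/-- every prime between the two powers is in a box -/
theorem in_box {X ω : ℝ} (hX : 0 < Real.log X) (hX0 : 0 < X) (hω : 0 < ω) {a b q : ℕ}
    (hq : q.Prime) (h1 : X ^ ((a : ℝ) * ω) ≤ (q : ℝ)) (h2 : (q : ℝ) < X ^ ((b : ℝ) * ω)) :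
    ∃ i ∈ Ico a b, q ∈ bx X ω i := by
  have hq0 : (0 : ℝ) < q := by exact_mod_cast hq.pos
  have hq1 : (1 : ℝ) < q := by exact_mod_cast hq.one_lt
  have hlq : 0 < Real.log q := Real.log_pos hq1
  have hD : 0 < ω * Real.log X := by positivity
  have e1 : (a : ℝ) * ω * Real.log X ≤ Real.log q := by
    rw [← Real.log_rpow hX0]
    exact Real.log_le_log (Real.rpow_pos_of_pos hX0 _) h1
  have e2 : Real.log q < (b : ℝ) * ω * Real.log X := by
    rw [← Real.log_rpow hX0]
    exact Real.log_lt_log hq0 h2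
  obtain ⟨z, hz⟩ : ∃ z : ℝ, z = Real.log q / (ω * Real.log X) := ⟨_, rfl⟩
  have hz0 : 0 ≤ z := by rw [hz]; positivity
  have hzq : z * (ω * Real.log X) = Real.log q := by rw [hz]; field_simp
  refine ⟨⌊z⌋₊, ?_, ?_⟩
  · rw [mem_Ico]
    constructor
    · apply Nat.le_floor
      rw [hz, le_div_iff₀ hD]
      linarith
    · rw [Nat.floor_lt hz0, hz, div_lt_iff₀ hD]
      linarith
  · unfold bx
    rw [mem_filter, mem_range, Nat.lt_ceil]
    have f1 : ((⌊z⌋₊ : ℕ) : ℝ) ≤ z := Nat.floor_le hz0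
    have f2 : z < (⌊z⌋₊ : ℕ) + 1 := Nat.lt_floor_add_one z
    refine ⟨?_, hq, ?_⟩
    · rw [← Real.exp_log hq0, Real.rpow_def_of_pos hX0]
      apply Real.exp_lt_exp.mpr
      rw [← hzq]
      have := mul_lt_mul_of_pos_right f2 hD
      linarith
    · rw [← Real.exp_log hq0, Real.rpow_def_of_pos hX0]
      apply Real.exp_le_exp.mpr
      rw [← hzq]
      have := mul_le_mul_of_nonneg_right f1 hD.le
      linarith

theorem sum_gm {a b : ℕ} (ha : 1 ≤ a) (hab : a ≤ b) :
    ∑ i ∈ Ico a b, gm i = Real.log b - Real.log a := by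
  induction b, hab using Nat.le_induction with
  | base => simp
  | succ b hab ih =>
    rw [sum_Ico_succ_top hab, ih]
    unfold gm
    have hb : (0 : ℝ) < b := by
      have : 0 < b := by omega
      exact_mod_cast this
    rw [Real.log_div (by positivity) hb.ne']
    push_cast
    ring

/-- the sum over the boxes -/
theorem sum_boxes {ε X ω : ℝ} {j0 Nm : ℕ} {g : ℕ → ℝ} (hR : Reg ε X ω j0 Nm g) {a b : ℕ}
    (ha : 1 ≤ a) (hab : a ≤ b) (haj : j0 ≤ a) (hb : b ≤ Nm) (S : Finset ℕ)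
    (hS : ∀ p ∈ S, ∃ i ∈ Ico a b, p ∈ bx X ω i) :
    ∑ p ∈ S, g p ≤ Real.log b - Real.log a + ((b : ℝ) - a) * ε := by
  classical
  obtain ⟨-, hg, hreg⟩ := hR
  have h1 : ∑ p ∈ S, g p ≤ ∑ p ∈ S, ∑ i ∈ Ico a b, (if p ∈ bx X ω i then g p else 0) := by
    apply sum_le_sum
    intro p hp
    obtain ⟨i, hi, hpi⟩ := hS p hp
    have h2 := single_le_sum (f := fun i => if p ∈ bx X ω i then g p else 0)
      (fun i _ => by
        split_ifs
        · exact (hg p).1
        · exact le_rfl) hi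
    rw [if_pos hpi] at h2
    exact h2
  refine h1.trans ?_
  rw [sum_comm]
  have h3 : ∀ i ∈ Ico a b, ∑ p ∈ S, (if p ∈ bx X ω i then g p else 0) ≤ gm i + ε := by
    intro i hi
    rw [mem_Ico] at hi
    rw [← sum_filter]
    have h4 : ∑ p ∈ S.filter (fun p => p ∈ bx X ω i), g p ≤ ∑ p ∈ bx X ω i, g p := by
      apply sum_le_sum_of_subset_of_nonneg
      · intro p hp
        exact (mem_filter.mp hp).2
      · intro p _ _
        exact (hg p).1
    have h5 := abs_le.mp (hreg i (by omega) (by omega))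
    linarith [h5.2]
  refine (sum_le_sum h3).trans ?_
  rw [sum_add_distrib, sum_gm ha hab, sum_const, Nat.card_Ico, nsmul_eq_mul, Nat.cast_sub hab]

end Pool.Agent.Helper82.UP
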