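import Pool.Agent.Helper9.UP.StC

/-!
# Project UP (MP_d466de_nt): common lemmas for the modules NA and NB
-/

set_option autoImplicit false

noncomputable section

namespace Pool.Agent.Helper82.UP

open Finset Polynomial
open Pool.Agent.Helper9.UP

theorem rho_le (f : ℤ[X]) (q : ℕ) : rho f q ≤ q := by
  unfold rho
  calc _ ≤ (range q).card := card_filter_le _ _
    _ = q := card_range q

theorem gf_nn (f : ℤ[X]) (p : ℕ) : 0 ≤ gf f p := by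
  unfold gf
  split_ifs
  · exact le_rfl
  · positivity

theorem gf_le (f : ℤ[X]) (p : ℕ) : gf f p ≤ 1 := by
  unfold gf
  split_ifs
  · exact zero_le_one
  · apply div_le_one_of_le₀
    · exact_mod_cast rho_le f p
    · positivity

theorem VV_nn (f : ℤ[X]) (w : ℕ) : 0 ≤ VV f w := by
  unfold VV
  exact prod_nonneg fun p _ => by linarith [gf_le f p]

theorem Qf_mono (f : ℤ[X]) {w w' : ℕ} (h : w ≤ w') : Qf f w ⊆ Qf f w' := by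
  intro p hp
  unfold Qf at hp ⊢
  rw [mem_filter, mem_Ioc] at hp ⊢
  exact ⟨⟨hp.1.1, hp.1.2.trans h⟩, hp.2⟩

/-- the upper bound sieve for one prime -/
theorem count_le (hCU : StCU) {Bs Λ : ℝ} {f : ℤ[X]} (hA : Adm Λ f) (hlc : 0 < f.leadingCoeff)
    (hFL : FLh Bs Λ f) {m0 N : ℕ} (hm0 : m0 < PM f) (hN : Real.exp Λ + 2 ≤ (N : ℝ)) {w' p : ℕ}
    (hw2 : 2 ≤ w') (hlw : Real.log w' ≤ Real.exp (Λ / 8))
    (hE : ∑ q ∈ (range (w' + 1)).filter Nat.Prime, gf f q ≤ Λ ^ 2)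
    (hp : p.Prime) (hwp : w' < p) (h2d : 2 * f.natDegree < p)
    (hB : Bs * Real.log w' ≤ Real.log ((N : ℝ) / p) / 4) :
    (((AA f m0 N).filter (fun m : ℕ => p ∣ val f m ∧ ∀ p' ∈ Qf f w', ¬ p' ∣ val f m)).card : ℝ) ≤
      1001 / 1000 * ((N : ℝ) / PM f * gf f p * VV f w') +
        (f.natDegree : ℝ) * (Real.exp (Bs * Λ ^ 4 + Λ ^ 2) * ((N : ℝ) / p) ^ (1 / 4 : ℝ)) := by
  obtain ⟨F0, F1, hF⟩ := hFL w' hw2 hlw
  have h := (hCU Λ (Bs * (Real.log w' + Λ ^ 4)) (Λ ^ 2) f m0 N w' F0 hA hlc hm0 hN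
    (fun T hT => hF.sub T (mem_union_left _ hT)) hE).2 hF.up p hp hwp h2d
  refine h.trans ?_
  have hNp : (0 : ℝ) < (N : ℝ) / p := by
    have h1 : (0 : ℝ) < N := lt_of_lt_of_le (by positivity) hN
    have h2 : (0 : ℝ) < p := by exact_mod_cast hp.pos
    positivity
  apply add_le_add
  · have h1 : MW F0 (gf f) ≤ 1001 / 1000 * VV f w' := by
      have := hF.main0
      have e : (1 + 1 / 1000 : ℝ) = 1001 / 1000 := by norm_num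
      rw [e] at this
      exact this
    have h2 : 0 ≤ (N : ℝ) / PM f * gf f p := mul_nonneg (by positivity) (gf_nn f p)
    calc (N : ℝ) / PM f * gf f p * MW F0 (gf f)
        ≤ (N : ℝ) / PM f * gf f p * (1001 / 1000 * VV f w') := mul_le_mul_of_nonneg_left h1 h2
      _ = 1001 / 1000 * ((N : ℝ) / PM f * gf f p * VV f w') := by ring
  · apply mul_le_mul_of_nonneg_left _ (by positivity)
    have e1 : ((N : ℝ) / p) ^ (1 / 4 : ℝ) = Real.exp (Real.log ((N : ℝ) / p) / 4) := by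
      rw [Real.rpow_def_of_pos hNp]
      congr 1
      ring
    rw [e1, ← Real.exp_add]
    apply Real.exp_le_exp.mpr
    linarith

theorem step_quarter (M : ℕ) :
    4 / 3 * (M : ℝ) ^ (3 / 4 : ℝ) + ((M : ℝ) + 1) ^ (-(1 / 4) : ℝ) ≤
      4 / 3 * ((M : ℝ) + 1) ^ (3 / 4 : ℝ) := by
  have hM : (0 : ℝ) ≤ M := by positivity
  have hM1 : (0 : ℝ) < (M : ℝ) + 1 := by positivity
  have h1 := Real.geom_mean_le_arith_mean2_weighted (show (0 : ℝ) ≤ 3 / 4 by norm_num)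
    (show (0 : ℝ) ≤ 1 / 4 by norm_num) hM hM1.le (by norm_num)
  have h2 : ((M : ℝ) + 1) ^ (-(1 / 4) : ℝ) * ((M : ℝ) + 1) ^ (1 / 4 : ℝ) = 1 := by
    rw [← Real.rpow_add hM1]; norm_num
  have h3 : ((M : ℝ) + 1) ^ (3 / 4 : ℝ) = ((M : ℝ) + 1) ^ (-(1 / 4) : ℝ) * ((M : ℝ) + 1) := by
    nth_rewrite 3 [← Real.rpow_one ((M : ℝ) + 1)]
    rw [← Real.rpow_add hM1]
    norm_num
  have h4 : 0 < ((M : ℝ) + 1) ^ (-(1 / 4) : ℝ) := Real.rpow_pos_of_pos hM1 _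
  have h5 : (M : ℝ) ^ (3 / 4 : ℝ)
      = ((M : ℝ) + 1) ^ (-(1 / 4) : ℝ) * ((M : ℝ) ^ (3 / 4 : ℝ) * ((M : ℝ) + 1) ^ (1 / 4 : ℝ)) := by
    calc (M : ℝ) ^ (3 / 4 : ℝ)
        = (M : ℝ) ^ (3 / 4 : ℝ) *
          (((M : ℝ) + 1) ^ (-(1 / 4) : ℝ) * ((M : ℝ) + 1) ^ (1 / 4 : ℝ)) := by rw [h2, mul_one]
      _ = _ := by ring
  rw [h3, h5]
  nlinarith [mul_le_mul_of_nonneg_left h1 h4.le]

theorem sum_quarter (M : ℕ) :
    ∑ n ∈ Icc 1 M, (n : ℝ) ^ (-(1 / 4) : ℝ) ≤ 4 / 3 * (M : ℝ) ^ (3 / 4 : ℝ) := by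
  induction M with
  | zero => simp [Real.zero_rpow]
  | succ M ih =>
    rw [sum_Icc_succ_top (by omega)]
    push_cast
    linarith [step_quarter M]

/-- facts on the primes up to `N ^ vd` -/
theorem one_sub_vd (f : ℤ[X]) : 1 - vd f = 1 / (2 * (f.natDegree : ℝ) + 1) := by
  unfold vd
  have : (2 * (f.natDegree : ℝ) + 1) ≠ 0 := by positivity
  field_simp
  ring

theorem vd_low {Λ : ℝ} {f : ℤ[X]} (hA : Adm Λ f) : 1 / (3 * Λ) ≤ 1 - vd f := by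
  rw [one_sub_vd]
  have h1 := hA.degLe
  have h2 : (1 : ℝ) ≤ f.natDegree := by exact_mod_cast hA.deg
  apply one_div_le_one_div_of_le (by positivity)
  linarith

theorem vd_le (f : ℤ[X]) : vd f ≤ 1 := by
  have h := one_sub_vd f
  have h2 : 0 ≤ 1 / (2 * (f.natDegree : ℝ) + 1) := by positivity
  linarith

theorem vd_nn (f : ℤ[X]) : 0 ≤ vd f := by
  unfold vd
  positivity

/-- the sum of the error terms -/
theorem err_sum {Λ : ℝ} {f : ℤ[X]} (hA : Adm Λ f) {N : ℕ} (hN : 1 ≤ N) (S : Finset ℕ)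
    (hS : ∀ p ∈ S, p.Prime ∧ (p : ℝ) ≤ (N : ℝ) ^ vd f) :
    ∑ p ∈ S, ((N : ℝ) / p) ^ (1 / 4 : ℝ) ≤
      4 / 3 * ((N : ℝ) * Real.exp (-(Real.log N / (4 * Λ)))) := by
  have hNR : (1 : ℝ) ≤ N := by exact_mod_cast hN
  have hN0 : (0 : ℝ) < N := by linarith
  have hlN : 0 ≤ Real.log N := Real.log_nonneg hNR
  have h1 : S ⊆ Icc 1 ⌊(N : ℝ) ^ vd f⌋₊ := by
    intro p hp
    rw [mem_Icc]
    exact ⟨(hS p hp).1.one_lt.le, Nat.le_floor (hS p hp).2⟩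
  have h2 : ∑ p ∈ S, ((N : ℝ) / p) ^ (1 / 4 : ℝ)
      = (N : ℝ) ^ (1 / 4 : ℝ) * ∑ p ∈ S, (p : ℝ) ^ (-(1 / 4) : ℝ) := by
    rw [mul_sum]
    apply sum_congr rfl
    intro p hp
    rw [Real.div_rpow hN0.le (by positivity), Real.rpow_neg (by positivity), div_eq_mul_inv]
  have h3 : ∑ p ∈ S, (p : ℝ) ^ (-(1 / 4) : ℝ)
      ≤ 4 / 3 * ((⌊(N : ℝ) ^ vd f⌋₊ : ℕ) : ℝ) ^ (3 / 4 : ℝ) :=
    (sum_le_sum_of_subset_of_nonneg h1 (fun _ _ _ => by positivity)).trans (sum_quarter _)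
  have h4 : ((⌊(N : ℝ) ^ vd f⌋₊ : ℕ) : ℝ) ^ (3 / 4 : ℝ) ≤ ((N : ℝ) ^ vd f) ^ (3 / 4 : ℝ) := by
    apply Real.rpow_le_rpow (by positivity) (Nat.floor_le (by positivity)) (by norm_num)
  have h5 : (N : ℝ) ^ (1 / 4 : ℝ) * ((N : ℝ) ^ vd f) ^ (3 / 4 : ℝ)
      ≤ (N : ℝ) * Real.exp (-(Real.log N / (4 * Λ))) := by
    have hx : (N : ℝ) * Real.exp (-(Real.log N / (4 * Λ)))
        = Real.exp (Real.log N + -(Real.log N / (4 * Λ))) := by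
      rw [Real.exp_add, Real.exp_log hN0]
    rw [← Real.rpow_mul hN0.le, ← Real.rpow_add hN0, Real.rpow_def_of_pos hN0, hx]
    apply Real.exp_le_exp.mpr
    have h6 := vd_low hA
    have hL : 0 < Λ := by
      have h1 := hA.degLe
      have h2 : (1 : ℝ) ≤ f.natDegree := by exact_mod_cast hA.deg
      linarith
    have h7 : Real.log N * (1 / (3 * Λ)) ≤ Real.log N * (1 - vd f) :=
      mul_le_mul_of_nonneg_left h6 hlN
    have h8 : Real.log N * (1 / (3 * Λ)) = 4 / 3 * (Real.log N / (4 * Λ)) := by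
      field_simp
    rw [h8] at h7
    nlinarith
  calc ∑ p ∈ S, ((N : ℝ) / p) ^ (1 / 4 : ℝ)
      = (N : ℝ) ^ (1 / 4 : ℝ) * ∑ p ∈ S, (p : ℝ) ^ (-(1 / 4) : ℝ) := h2
    _ ≤ (N : ℝ) ^ (1 / 4 : ℝ) * (4 / 3 * ((N : ℝ) ^ vd f) ^ (3 / 4 : ℝ)) := by
        apply mul_le_mul_of_nonneg_left _ (by positivity)
        linarith
    _ = 4 / 3 * ((N : ℝ) ^ (1 / 4 : ℝ) * ((N : ℝ) ^ vd f) ^ (3 / 4 : ℝ)) := by ring
    _ ≤ _ := by linarith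

/-- `(4/3) d exp (Bs Λ^4 + Λ^2) ≤ exp (2 Bs Λ^4)` -/
theorem exp_absorb {Bs Λ : ℝ} {f : ℤ[X]} (hA : Adm Λ f) (hBs : 1 ≤ Bs) (hΛ : 2 ≤ Λ) :
    (f.natDegree : ℝ) * Real.exp (Bs * Λ ^ 4 + Λ ^ 2) * (4 / 3) ≤ Real.exp (2 * Bs * Λ ^ 4) := by
  have h1 : (f.natDegree : ℝ) * (4 / 3) ≤ Real.exp (2 * Λ) := by
    have e1 := hA.degLe
    have e2 := Real.add_one_le_exp (2 * Λ)
    linarith
  have h2 : Real.exp (2 * Λ) * Real.exp (Bs * Λ ^ 4 + Λ ^ 2) ≤ Real.exp (2 * Bs * Λ ^ 4) := by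
    rw [← Real.exp_add]
    apply Real.exp_le_exp.mpr
    have e3 : Λ ^ 4 ≤ Bs * Λ ^ 4 := by
      have : 0 ≤ Λ ^ 4 := by positivity
      nlinarith
    have e4 : 4 ≤ Λ ^ 2 := by nlinarith
    have e5 : 2 * Λ + Λ ^ 2 ≤ Λ ^ 4 := by
      have : Λ ^ 4 = Λ ^ 2 * Λ ^ 2 := by ring
      nlinarith
    linarith
  calc (f.natDegree : ℝ) * Real.exp (Bs * Λ ^ 4 + Λ ^ 2) * (4 / 3)
      = ((f.natDegree : ℝ) * (4 / 3)) * Real.exp (Bs * Λ ^ 4 + Λ ^ 2) := by ring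
    _ ≤ Real.exp (2 * Λ) * Real.exp (Bs * Λ ^ 4 + Λ ^ 2) :=
        mul_le_mul_of_nonneg_right h1 (by positivity)
    _ ≤ _ := h2

/-- the total error -/
theorem err_total {Bs Λ : ℝ} {f : ℤ[X]} (hA : Adm Λ f) (hBs : 1 ≤ Bs) (hΛ : 2 ≤ Λ) {N : ℕ}
    (hN : 1 ≤ N) (S : Finset ℕ) (hS : ∀ p ∈ S, p.Prime ∧ (p : ℝ) ≤ (N : ℝ) ^ vd f) :
    ∑ p ∈ S, (f.natDegree : ℝ) * (Real.exp (Bs * Λ ^ 4 + Λ ^ 2) * ((N : ℝ) / p) ^ (1 / 4 : ℝ)) ≤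
      N * Real.exp (2 * Bs * Λ ^ 4 - Real.log N / (4 * Λ)) := by
  have h1 := err_sum hA hN S hS
  have h2 := exp_absorb hA hBs hΛ
  have h3 : 0 ≤ (f.natDegree : ℝ) * Real.exp (Bs * Λ ^ 4 + Λ ^ 2) := by positivity
  have h4 : (0 : ℝ) ≤ (N : ℝ) * Real.exp (-(Real.log N / (4 * Λ))) := by positivity
  calc ∑ p ∈ S, (f.natDegree : ℝ) * (Real.exp (Bs * Λ ^ 4 + Λ ^ 2) * ((N : ℝ) / p) ^ (1 / 4 : ℝ))
      = ((f.natDegree : ℝ) * Real.exp (Bs * Λ ^ 4 + Λ ^ 2)) *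
          ∑ p ∈ S, ((N : ℝ) / p) ^ (1 / 4 : ℝ) := by
        rw [mul_sum]
        apply sum_congr rfl
        intro p _
        ring
    _ ≤ ((f.natDegree : ℝ) * Real.exp (Bs * Λ ^ 4 + Λ ^ 2)) *
          (4 / 3 * ((N : ℝ) * Real.exp (-(Real.log N / (4 * Λ))))) :=
        mul_le_mul_of_nonneg_left h1 h3
    _ = ((f.natDegree : ℝ) * Real.exp (Bs * Λ ^ 4 + Λ ^ 2) * (4 / 3)) *
          ((N : ℝ) * Real.exp (-(Real.log N / (4 * Λ)))) := by ring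
    _ ≤ Real.exp (2 * Bs * Λ ^ 4) * ((N : ℝ) * Real.exp (-(Real.log N / (4 * Λ)))) :=
        mul_le_mul_of_nonneg_right h2 h4
    _ = N * Real.exp (2 * Bs * Λ ^ 4 - Real.log N / (4 * Λ)) := by
        rw [sub_eq_add_neg, Real.exp_add]; ring

/-- the floor -/
theorem floor_log {y : ℝ} (hpos : 0 < y) (hy : 2 ≤ Real.log y) :
    Real.log y / 2 ≤ Real.log ⌊y⌋₊ ∧ 2 ≤ ⌊y⌋₊ ∧ Real.log ⌊y⌋₊ ≤ Real.log y := by
  have h1 : Real.exp 2 ≤ y := by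
    rw [← Real.exp_log hpos]
    exact Real.exp_le_exp.mpr hy
  have h2 : (4 : ℝ) ≤ Real.exp 2 := by
    have e1 : Real.exp 2 = Real.exp 1 * Real.exp 1 := by
      rw [← Real.exp_add]; norm_num
    have e2 := Real.add_one_le_exp (1 : ℝ)
    rw [e1]
    nlinarith
  have h3 : 4 ≤ y := h2.trans h1
  have h4 : y < ⌊y⌋₊ + 1 := Nat.lt_floor_add_one y
  have h5 : y / 2 ≤ (⌊y⌋₊ : ℝ) := by linarith
  have h6 : (⌊y⌋₊ : ℝ) ≤ y := Nat.floor_le hpos.le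
  have h7 : (2 : ℝ) ≤ ⌊y⌋₊ := by linarith
  refine ⟨?_, by exact_mod_cast h7, Real.log_le_log (by linarith) h6⟩
  have h8 : Real.log (y / 2) ≤ Real.log ⌊y⌋₊ := Real.log_le_log (by linarith) h5
  rw [Real.log_div hpos.ne' (by norm_num)] at h8
  have h9 : Real.log 2 < 1 := by
    have := Real.log_two_lt_d9
    linarith
  linarith

/-- `exp 4 < 54.6` -/
theorem exp_four : Real.exp 4 < 546 / 10 := by
  have h1 := Real.exp_one_lt_d9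
  have h0 : 0 < Real.exp 1 := Real.exp_pos 1
  have e : Real.exp 4 = Real.exp 1 ^ 4 := by
    rw [← Real.exp_nat_mul]; norm_num
  rw [e]
  calc Real.exp 1 ^ 4 ≤ 2.7182818286 ^ 4 := pow_le_pow_left₀ h0.le h1.le 4
    _ < 546 / 10 := by norm_num

/-- the quantities for one prime -/
theorem pfacts {Λ : ℝ} {f : ℤ[X]} (hA : Adm Λ f) {N p : ℕ} (hN : 0 < Real.log N) (hp : p.Prime)
    (hpv : (p : ℝ) ≤ (N : ℝ) ^ vd f) :
    Real.log ((N : ℝ) / p) = (1 - Real.log p / Real.log N) * Real.log N ∧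
      1 / (3 * Λ) ≤ 1 - Real.log p / Real.log N ∧ 1 - Real.log p / Real.log N ≤ 1 := by
  have hN0 : (0 : ℝ) < N := by
    rcases Nat.eq_zero_or_pos N with h | h
    · subst h; simp at hN
    · exact_mod_cast h
  have hp1 : (1 : ℝ) < p := by exact_mod_cast hp.one_lt
  have hp0 : (0 : ℝ) < p := by linarith
  have hlp : 0 < Real.log p := Real.log_pos hp1
  refine ⟨?_, ?_, ?_⟩
  · rw [Real.log_div hN0.ne' hp0.ne']
    field_simp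
  · have h1 : Real.log p ≤ vd f * Real.log N := by
      rw [← Real.log_rpow hN0]
      exact Real.log_le_log hp0 hpv
    have h2 : Real.log p / Real.log N ≤ vd f := by
      rw [div_le_iff₀ hN]; exact h1
    have h3 := vd_low hA
    linarith
  · have : 0 ≤ Real.log p / Real.log N := by positivity
    linarith

/-- numerical facts -/
theorem basics {Bs C Λ lN : ℝ} (hBs : 1 ≤ Bs) (hC : 1 ≤ C) (hΛ : 2 ≤ Λ)
    (h : 48 * Bs * (C + 1) * Λ ^ 5 ≤ lN) :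
    16 ≤ Λ ^ 4 ∧ Λ ^ 3 ≤ Λ ^ 4 ∧ 2 * Λ ≤ Λ ^ 5 ∧ 48 * Bs * Λ ^ 5 ≤ lN ∧ 48 * Λ ^ 5 ≤ lN ∧
      0 < lN ∧ Λ + 1 ≤ lN := by
  have h1 : 16 ≤ Λ ^ 4 := by
    have e2 : (2 : ℝ) ^ 4 ≤ Λ ^ 4 := pow_le_pow_left₀ (by norm_num) hΛ 4
    linarith
  have h2 : Λ ^ 3 ≤ Λ ^ 4 := by
    have e : 0 ≤ Λ ^ 3 * (Λ - 1) := mul_nonneg (by positivity) (by linarith)
    have e' : Λ ^ 3 * (Λ - 1) = Λ ^ 4 - Λ ^ 3 := by ring
    linarith
  have h3 : 2 * Λ ≤ Λ ^ 5 := by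
    have e : 0 ≤ Λ * (Λ ^ 4 - 2) := mul_nonneg (by linarith) (by linarith)
    have e' : Λ * (Λ ^ 4 - 2) = Λ ^ 5 - 2 * Λ := by ring
    linarith
  have h4 : 48 * Bs * Λ ^ 5 ≤ lN := by
    have e : 0 ≤ 48 * Bs * Λ ^ 5 * C := by positivity
    have e' : 48 * Bs * (C + 1) * Λ ^ 5 = 48 * Bs * Λ ^ 5 * C + 48 * Bs * Λ ^ 5 := by ring
    linarith
  have h5 : 48 * Λ ^ 5 ≤ lN := by
    have e : 0 ≤ Λ ^ 5 * (Bs - 1) := mul_nonneg (by positivity) (by linarith)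
    have e' : Λ ^ 5 * (Bs - 1) = Bs * Λ ^ 5 - Λ ^ 5 := by ring
    linarith
  exact ⟨h1, h2, h3, h4, h5, by linarith, by linarith⟩

theorem bigN {N : ℕ} {Λ lN : ℝ} (hlN : lN = Real.log N) (h0 : 0 < lN) (h1 : Λ + 1 ≤ lN)
    (hΛ : 2 ≤ Λ) :
    (0 : ℝ) < N ∧ 1 ≤ N ∧ Real.exp lN = N ∧ Real.exp Λ + 2 ≤ (N : ℝ) := by
  have hN0 : (0 : ℝ) < N := by
    rcases Nat.eq_zero_or_pos N with h | h
    · subst h; simp at hlN; linarith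
    · exact_mod_cast h
  have hNn : 1 ≤ N := by
    have : 0 < N := by exact_mod_cast hN0
    omega
  have hNexp : Real.exp lN = N := by rw [hlN, Real.exp_log hN0]
  refine ⟨hN0, hNn, hNexp, ?_⟩
  have e2 : Real.exp (Λ + 1) ≤ N := by rw [← hNexp]; exact Real.exp_le_exp.mpr h1
  have e3 : Real.exp (Λ + 1) = Real.exp Λ * Real.exp 1 := Real.exp_add _ _
  have e4 := Real.add_one_le_exp (1 : ℝ)
  have e5 := Real.add_one_le_exp Λ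
  have e6 : Real.exp Λ * 2 ≤ Real.exp Λ * Real.exp 1 :=
    mul_le_mul_of_nonneg_left (by linarith) (Real.exp_pos Λ).le
  linarith

theorem level {Bs C Λ lN s : ℝ} (hBs : 1 ≤ Bs) (hC : 1 ≤ C) (hΛ : 2 ≤ Λ)
    (h : 48 * Bs * (C + 1) * Λ ^ 5 ≤ lN) (hs : 1 / (3 * Λ) ≤ s) (hs0 : 0 < s) :
    2 ≤ s * lN / (4 * Bs) ∧ C * Λ ^ 3 ≤ s * lN / (4 * Bs) / 2 := by
  obtain ⟨b1, b2, -⟩ := basics hBs hC hΛ h
  have hBs0 : 0 < Bs := by linarith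
  have hΛ0 : 0 < Λ := by linarith
  have hsl : 16 * Bs * (C + 1) * Λ ^ 4 ≤ s * lN := by
    have e1 : 1 / (3 * Λ) * (48 * Bs * (C + 1) * Λ ^ 5) ≤ s * lN :=
      mul_le_mul hs h (by positivity) hs0.le
    have e2 : 1 / (3 * Λ) * (48 * Bs * (C + 1) * Λ ^ 5) = 16 * Bs * (C + 1) * Λ ^ 4 := by
      field_simp
      ring
    linarith
  have hsl4 : 4 * (C + 1) * Λ ^ 4 ≤ s * lN / (4 * Bs) := by
    rw [le_div_iff₀ (by positivity)]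
    linarith
  have e1 : C * Λ ^ 3 ≤ C * Λ ^ 4 := mul_le_mul_of_nonneg_left b2 (by linarith)
  have e2 : 0 ≤ C * Λ ^ 4 := by positivity
  have e3 : 4 * (C + 1) * Λ ^ 4 = 4 * (C * Λ ^ 4) + 4 * Λ ^ 4 := by ring
  constructor <;> linarith

end Pool.Agent.Helper82.UP
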