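import Pool.Agent.Helper82.UP.Boxes

/-!
# Module NA of project UP (MP_d466de_nt)
-/

set_option autoImplicit false

noncomputable section

namespace Pool.Agent.Helper82.UP

open Finset Polynomial
open Pool.Agent.Helper9.UP
open Pool.Agent.Helper9.TW (gm)

/-- the numbers of the parameters -/
theorem num_par {ω : ℝ} {K u j0 : ℕ} (hK : 5 ≤ K) (hu : 1 ≤ u)
    (hω : ω = 1 / (4 * (K + 1) * u)) (hj : (j0 : ℝ) * ω ≤ 1 / 8) :
    0 < ω ∧ (((4 * (K - 1) * u : ℕ) : ℝ) * ω = ((K : ℝ) - 1) / (K + 1)) ∧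
      (((4 * (K + 1) * u : ℕ) : ℝ) * ω = 1) ∧ j0 ≤ 4 * (K - 1) * u ∧
      1 / (2 * ((K : ℝ) + 1)) < ((K * u : ℕ) : ℝ) * ω ∧ 2 / 3 ≤ ((K : ℝ) - 1) / (K + 1) := by
  have hKR : (5 : ℝ) ≤ K := by exact_mod_cast hK
  have huR : (1 : ℝ) ≤ u := by exact_mod_cast hu
  have hu0 : (0 : ℝ) < u := by linarith
  have hK1 : (0 : ℝ) < (K : ℝ) + 1 := by linarith
  have hω0 : 0 < ω := by rw [hω]; positivity
  have e1 : (((4 * (K - 1) * u : ℕ) : ℝ)) = 4 * ((K : ℝ) - 1) * u := by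
    push_cast [Nat.cast_sub (show 1 ≤ K by omega)]
    ring
  have e2 : 4 * ((K : ℝ) + 1) * u * ω = 1 := by
    rw [hω]; field_simp
  refine ⟨hω0, ?_, ?_, ?_, ?_, ?_⟩
  · rw [e1, hω]; field_simp
  · push_cast; exact e2
  · have h1 : (j0 : ℝ) ≤ 4 * ((K : ℝ) - 1) * u := by
      have h2 : (j0 : ℝ) * ω ≤ 4 * ((K : ℝ) - 1) * u * ω := by
        refine hj.trans ?_
        have h3 : 4 * ((K : ℝ) - 1) * u * ω = 1 - 8 * (u * ω) := by linarith
        have h4 : 24 * (u * ω) ≤ 1 := by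
          have : 0 ≤ u * ω := by positivity
          nlinarith
        rw [h3]; linarith
      exact le_of_mul_le_mul_right h2 hω0
    rw [← e1] at h1
    exact_mod_cast h1
  · have h1 : ((K * u : ℕ) : ℝ) * ω = (K : ℝ) / (4 * ((K : ℝ) + 1)) := by
      rw [hω]; push_cast; field_simp
    rw [h1, div_lt_div_iff₀ (by positivity) (by positivity)]
    nlinarith
  · rw [div_le_div_iff₀ (by norm_num) hK1]
    linarith

/-- the sum of the densities of the large primes -/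
theorem dens_le {ε ω X : ℝ} {g : ℕ → ℝ} {K u j0 Nm : ℕ} (hK : 5 ≤ K) (hu : 1 ≤ u) (hj0 : 1 ≤ j0)
    (hω : ω = 1 / (4 * (K + 1) * u)) (hj : (j0 : ℝ) * ω ≤ 1 / 8) (hε : ε ≤ ω / 8)
    (hNm : 4 * (K + 1) * u ≤ Nm) (hR : Reg ε X ω j0 Nm g) (S : Finset ℕ)
    (hS : ∀ p ∈ S, ∃ i ∈ Ico (4 * (K - 1) * u) (4 * (K + 1) * u), p ∈ bx X ω i) :
    ∑ p ∈ S, g p ≤ 3 / K := by
  obtain ⟨hω0, n1, n2, n3, n4, n5⟩ := num_par hK hu hω hj
  have hKR : (5 : ℝ) ≤ K := by exact_mod_cast hK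
  have huR : (1 : ℝ) ≤ u := by exact_mod_cast hu
  have ha1 : 1 ≤ 4 * (K - 1) * u := hj0.trans n3
  have hab : 4 * (K - 1) * u ≤ 4 * (K + 1) * u := by
    apply Nat.mul_le_mul_right
    omega
  have h := sum_boxes hR ha1 hab n3 hNm S hS
  have e1 : (((4 * (K - 1) * u : ℕ) : ℝ)) = 4 * ((K : ℝ) - 1) * u := by
    push_cast [Nat.cast_sub (show 1 ≤ K by omega)]
    ring
  have e2 : (((4 * (K + 1) * u : ℕ) : ℝ)) = 4 * ((K : ℝ) + 1) * u := by
    push_cast
    ring
  rw [e1, e2] at h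
  have hKm : (0 : ℝ) < (K : ℝ) - 1 := by linarith
  have hu0 : (0 : ℝ) < u := by linarith
  have e3 : Real.log (4 * ((K : ℝ) + 1) * u) - Real.log (4 * ((K : ℝ) - 1) * u) ≤ 2 / ((K : ℝ) - 1) := by
    rw [← Real.log_div (by positivity) (by positivity)]
    have e4 : 4 * ((K : ℝ) + 1) * u / (4 * ((K : ℝ) - 1) * u) = 1 + 2 / ((K : ℝ) - 1) := by
      field_simp
      ring
    rw [e4]
    have := Real.log_le_sub_one_of_pos (show (0 : ℝ) < 1 + 2 / ((K : ℝ) - 1) by positivity)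
    linarith
  have e5 : (4 * ((K : ℝ) + 1) * u - 4 * ((K : ℝ) - 1) * u) * ε ≤ 1 / (4 * ((K : ℝ) + 1)) := by
    have f1 : (4 * ((K : ℝ) + 1) * u - 4 * ((K : ℝ) - 1) * u) = 8 * u := by ring
    rw [f1]
    have f2 : 8 * (u : ℝ) * ε ≤ 8 * u * (ω / 8) := mul_le_mul_of_nonneg_left hε (by positivity)
    refine f2.trans (le_of_eq ?_)
    rw [hω]
    field_simp
  have e6 : 2 / ((K : ℝ) - 1) ≤ (5 / 2) / K := by
    rw [div_le_div_iff₀ hKm (by linarith)]
    linarith
  have e7 : 1 / (4 * ((K : ℝ) + 1)) ≤ (1 / 2) / K := by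
    rw [div_le_div_iff₀ (by positivity) (by linarith)]
    linarith
  have e8 : (5 / 2) / (K : ℝ) + (1 / 2) / K = 3 / K := by
    rw [← add_div]; norm_num
  linarith

theorem hNA (hVA : StVA) (hVR : StVR) (hCU : StCU) (hEX : StEX) : StNA := by
  intro Bs ω ε K u j0 Nm hBs hK hu hj0 hω hj hε0 hε hNm
  obtain ⟨C, Λ1, hC1, hvr⟩ := hVR
  obtain ⟨Λ2, hΛ2, hex⟩ := hEX
  refine ⟨48 * Bs * (C + 1), max Λ1 (max Λ2 2), ?_⟩
  intro Λ hΛ f hA hlc hFL m0 N w hm0 hN1 hN2 hReg hw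
  have hΛ1 : Λ1 ≤ Λ := (le_max_left _ _).trans hΛ
  have hΛ2' : Λ2 ≤ Λ := (le_max_left _ _).trans ((le_max_right _ _).trans hΛ)
  have hΛ3 : 2 ≤ Λ := (le_max_right _ _).trans ((le_max_right _ _).trans hΛ)
  have hBs0 : 0 < Bs := by linarith
  have hΛ0 : 0 < Λ := by linarith
  obtain ⟨hω0, n1, n2, n3, n4, n5⟩ := num_par hK hu hω hj
  have hKR : (5 : ℝ) ≤ K := by exact_mod_cast hK
  obtain ⟨x, hx⟩ : ∃ x : ℝ, x = ((K : ℝ) - 1) / (K + 1) := ⟨_, rfl⟩
  have hx2 : 1 - x = 2 / ((K : ℝ) + 1) := by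
    rw [hx]; field_simp; ring
  rw [← hx] at n1 n5 ⊢
  obtain ⟨θ, hθ⟩ : ∃ θ : ℝ, θ = (j0 : ℝ) * ω := ⟨_, rfl⟩
  have hθ0 : 0 < θ := by
    rw [hθ]
    have : (1 : ℝ) ≤ j0 := by exact_mod_cast hj0
    positivity
  obtain ⟨lN, hlN⟩ : ∃ lN : ℝ, lN = Real.log N := ⟨_, rfl⟩
  rw [← hlN] at hN1 hN2
  obtain ⟨hL4, hL34, hL5', hlNb, hlNb', hlN0, hΛl⟩ := basics hBs hC1 hΛ3 hN1
  obtain ⟨hN0, hNn, hNexp, hNL⟩ := bigN hlN hlN0 hΛl hΛ3
  have hexp8 : lN ≤ Real.exp (Λ / 8) := hN2.trans (Real.exp_le_exp.mpr (by linarith))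
  have hexp4 : lN ≤ Real.exp (Λ / 4) := hN2.trans (Real.exp_le_exp.mpr (by linarith))
  have hNx : ∀ y : ℝ, (N : ℝ) ^ y = Real.exp (y * lN) := by
    intro y
    rw [Real.rpow_def_of_pos hN0, ← hlN, mul_comm]
  obtain ⟨S, hS⟩ : ∃ S : Finset ℕ, S = Nr f N x := ⟨_, rfl⟩
  have hSm : ∀ p ∈ S, p.Prime ∧ (N : ℝ) ^ x ≤ (p : ℝ) ∧ (p : ℝ) ≤ (N : ℝ) ^ vd f := by
    intro p hp
    rw [hS] at hp
    unfold Nr at hp
    rw [mem_filter] at hp
    exact ⟨hp.2.1, hp.2.2.1, hp.2.2.2⟩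
  rw [← hS, ← hθ]
  rw [← hθ] at hw
  have hVw := VV_nn f w
  -- `w` is below `N ^ θ`
  have hwlt : (w : ℝ) < (N : ℝ) ^ θ := by
    have h1 : 0 < (N : ℝ) ^ θ := Real.rpow_pos_of_pos hN0 _
    have h2 : w < ⌈(N : ℝ) ^ θ⌉₊ := by
      have : 0 < ⌈(N : ℝ) ^ θ⌉₊ := Nat.ceil_pos.mpr h1
      omega
    exact Nat.lt_ceil.mp h2
  -- one prime
  have one : ∀ p ∈ S, (1 - Real.log p / Real.log N) *
      (((AA f m0 N).filter (fun m : ℕ => p ∣ val f m ∧ (∀ p' ∈ Qf f w, ¬ p' ∣ val f m) ∧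
        ind N ω j0 (K * u) (val f m) = 1)).card : ℝ) ≤
      438 * Bs * θ * ((N : ℝ) / PM f) * VV f w * gf f p +
        (f.natDegree : ℝ) * (Real.exp (Bs * Λ ^ 4 + Λ ^ 2) * ((N : ℝ) / p) ^ (1 / 4 : ℝ)) := by
    intro p hpS
    obtain ⟨hpp, hpl, hpv⟩ := hSm p hpS
    have hp0 : (0 : ℝ) < p := by exact_mod_cast hpp.pos
    obtain ⟨q1, q2, q3⟩ := pfacts hA (N := N) (by rw [← hlN]; exact hlN0) hpp hpv
    have hlp : x * lN ≤ Real.log p := by
      rw [hNx] at hpl
      rw [← Real.log_exp (x * lN)]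
      exact Real.log_le_log (Real.exp_pos _) hpl
    obtain ⟨s, hs⟩ : ∃ s : ℝ, s = 1 - Real.log p / Real.log N := ⟨_, rfl⟩
    have hsx : s ≤ 2 / ((K : ℝ) + 1) := by
      rw [hs, ← hlN, ← hx2]
      have : x ≤ Real.log p / lN := by rw [le_div_iff₀ hlN0]; exact hlp
      linarith
    rw [← hs] at q1 q2 q3 ⊢
    rw [← hlN] at q1
    have hs0 : 0 < s := lt_of_lt_of_le (by positivity) q2
    have hNp : (0 : ℝ) < (N : ℝ) / p := by positivity
    have hz0 : 0 < ((N : ℝ) / p) ^ (1 / (4 * Bs)) := Real.rpow_pos_of_pos hNp _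
    have hlz : Real.log (((N : ℝ) / p) ^ (1 / (4 * Bs))) = s * lN / (4 * Bs) := by
      rw [Real.log_rpow hNp, q1]; ring
    obtain ⟨h2z', hCv'⟩ := level hBs hC1 hΛ3 hN1 q2 hs0
    have h2z : 2 ≤ Real.log (((N : ℝ) / p) ^ (1 / (4 * Bs))) := by
      rw [hlz]; exact h2z'
    have hfl2 := floor_log hz0 h2z
    rw [hlz] at hfl2
    obtain ⟨v, hv⟩ : ∃ v : ℕ, v = ⌊((N : ℝ) / p) ^ (1 / (4 * Bs))⌋₊ := ⟨_, rfl⟩
    rw [← hv] at hfl2
    obtain ⟨v1, v2, v3⟩ := hfl2
    have hvR : (2 : ℝ) ≤ v := by exact_mod_cast v2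
    have hv0 : (0 : ℝ) < v := by linarith
    have v3' : Bs * Real.log v ≤ Real.log ((N : ℝ) / p) / 4 := by
      rw [q1]
      have e1 : Bs * (s * lN / (4 * Bs)) = s * lN / 4 := by field_simp
      have e2 := mul_le_mul_of_nonneg_left v3 hBs0.le
      linarith
    -- `log v ≤ log N / (2 (K + 1))`
    have v4 : Real.log v ≤ 1 / (2 * ((K : ℝ) + 1)) * lN := by
      have e1 : s * lN / (4 * Bs) ≤ s * lN / 4 := by
        apply div_le_div_of_nonneg_left (by positivity) (by norm_num)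
        linarith
      have e2 : s * lN ≤ 2 / ((K : ℝ) + 1) * lN := mul_le_mul_of_nonneg_right hsx hlN0.le
      have e3 : 2 / ((K : ℝ) + 1) * lN / 4 = 1 / (2 * ((K : ℝ) + 1)) * lN := by
        field_simp
        norm_num
      linarith
    have hK12 : 1 / (2 * ((K : ℝ) + 1)) ≤ 1 / 12 := by
      apply one_div_le_one_div_of_le (by norm_num)
      linarith
    have v5 : Real.log v ≤ 1 / 12 * lN := v4.trans (mul_le_mul_of_nonneg_right hK12 hlN0.le)
    have hlp2 : 2 / 3 * lN ≤ Real.log p :=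
      (mul_le_mul_of_nonneg_right n5 hlN0.le).trans hlp
    have hvp : v < p := by
      have h1 : Real.log v < Real.log p := by linarith
      have h2 : (v : ℝ) < p := (Real.log_lt_log_iff hv0 hp0).mp h1
      exact_mod_cast h2
    have h2d : 2 * f.natDegree < p := by
      have e1 := hA.degLe
      have e3 := Real.add_one_le_exp (Real.log p)
      rw [Real.exp_log hp0] at e3
      have e2 : 2 * (f.natDegree : ℝ) < p := by linarith
      exact_mod_cast e2
    have hvN : v ≤ N := by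
      have h1 : Real.log v ≤ lN := by linarith
      have h2 : (v : ℝ) ≤ N := by
        rw [hlN] at h1
        exact (Real.log_le_log_iff hv0 hN0).mp h1
      exact_mod_cast h2
    have herr : 0 ≤ (f.natDegree : ℝ) *
        (Real.exp (Bs * Λ ^ 4 + Λ ^ 2) * ((N : ℝ) / p) ^ (1 / 4 : ℝ)) := by positivity
    have hNPg : 0 ≤ (N : ℝ) / PM f * gf f p := mul_nonneg (by positivity) (gf_nn f p)
    have hl8' : Real.log v ≤ Real.exp (Λ / 8) := by linarith
    have hc := count_le hCU hA hlc hFL hm0 hNL v2 hl8' (hex Λ hΛ2' f hA v hl8').1 hpp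
      hvp h2d v3'
    have hsub : (((AA f m0 N).filter (fun m : ℕ => p ∣ val f m ∧ (∀ p' ∈ Qf f w, ¬ p' ∣ val f m) ∧
          ind N ω j0 (K * u) (val f m) = 1)).card : ℝ) ≤
        (((AA f m0 N).filter
          (fun m : ℕ => p ∣ val f m ∧ ∀ p' ∈ Qf f v, ¬ p' ∣ val f m)).card : ℝ) := by
      have : ((AA f m0 N).filter (fun m : ℕ => p ∣ val f m ∧ (∀ p' ∈ Qf f w, ¬ p' ∣ val f m) ∧
          ind N ω j0 (K * u) (val f m) = 1)).card ≤
        ((AA f m0 N).filter
          (fun m : ℕ => p ∣ val f m ∧ ∀ p' ∈ Qf f v, ¬ p' ∣ val f m)).card := by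
        apply card_le_card
        intro m hm
        rw [mem_filter] at hm ⊢
        refine ⟨hm.1, hm.2.1, fun p' hp' hdiv => ?_⟩
        have hp'Q := hp'
        unfold Qf at hp'
        rw [mem_filter, mem_Ioc] at hp'
        rcases le_or_gt p' w with hpw | hpw
        · apply hm.2.2.1 p' _ hdiv
          unfold Qf
          rw [mem_filter, mem_Ioc]
          exact ⟨⟨hp'.1.1, hpw⟩, hp'.2⟩
        · have g1 : (N : ℝ) ^ ((j0 : ℝ) * ω) ≤ (p' : ℝ) := by
            rw [← hθ]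
            apply Nat.ceil_le.mp
            omega
          have g2 : (p' : ℝ) < (N : ℝ) ^ (((K * u : ℕ) : ℝ) * ω) := by
            have h1 : (p' : ℝ) ≤ v := by exact_mod_cast hp'.1.2
            have h2 : (v : ℝ) = Real.exp (Real.log v) := (Real.exp_log hv0).symm
            refine lt_of_le_of_lt h1 ?_
            rw [h2, hNx]
            apply Real.exp_lt_exp.mpr
            exact lt_of_le_of_lt v4 (mul_lt_mul_of_pos_right n4 hlN0)
          obtain ⟨i, hi, hib⟩ := in_box (by rw [← hlN]; exact hlN0) hN0 hω0 hp'.2 g1 g2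
          have g3 : p' ∈ Pr N ω j0 (K * u) := by
            unfold Pr
            rw [mem_biUnion]
            exact ⟨i, hi, hib⟩
          have g4 := hm.2.2.2
          unfold ind at g4
          rw [if_pos ⟨p', g3, hdiv⟩] at g4
          exact absurd g4 (by norm_num)
      exact_mod_cast this
    have hlv0 : 0 < Real.log v := Real.log_pos (by linarith)
    -- the sieve product
    have hVv : VV f v ≤ Real.exp 4 * (θ * lN / Real.log v) * VV f w := by
      rcases lt_or_ge w v with hwv | hwv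
      · have h := hVA ω ε j0 Nm N w v f hω0 hj0 hε0 (by linarith) (by
            rw [← n2]
            apply mul_le_mul_of_nonneg_right _ hω0.le
            exact_mod_cast hNm) hReg (by rw [← hθ]; exact hw) hwv hvN v2
        rw [← hθ, ← hlN] at h
        exact h
      · have hCv : C * Λ ^ 3 ≤ Real.log v := hCv'.trans v1
        have hw0 : (0 : ℝ) < w := by
          have : (2 : ℝ) ≤ w := by exact_mod_cast v2.trans hwv
          linarith
        have hlw : Real.log w ≤ θ * lN := by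
          have h1 : Real.log w ≤ Real.log ((N : ℝ) ^ θ) := Real.log_le_log hw0 hwlt.le
          rw [Real.log_rpow hN0, ← hlN] at h1
          exact h1
        have hθ1 : θ * lN ≤ lN := by
          have h1 : θ ≤ 1 := by rw [hθ]; linarith
          exact mul_le_of_le_one_left hlN0.le h1
        have hr := hvr Λ hΛ1 f hA v w hCv hwv (by linarith)
        refine hr.trans ?_
        apply mul_le_mul_of_nonneg_right _ hVw
        apply mul_le_mul_of_nonneg_left _ (Real.exp_pos 4).le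
        exact div_le_div_of_nonneg_right hlw hlv0.le
    have hsV : s * VV f v ≤ Real.exp 4 * (8 * Bs * θ) * VV f w := by
      have h1 : s * (θ * lN / Real.log v) ≤ 8 * Bs * θ := by
        rw [← mul_div_assoc, div_le_iff₀ hlv0]
        have e1 : s * lN / (4 * Bs) / 2 ≤ Real.log v := v1
        have e2 : 8 * Bs * θ * (s * lN / (4 * Bs) / 2) ≤ 8 * Bs * θ * Real.log v :=
          mul_le_mul_of_nonneg_left e1 (by positivity)
        have e3 : 8 * Bs * θ * (s * lN / (4 * Bs) / 2) = s * (θ * lN) := by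
          field_simp
          norm_num
        linarith
      calc s * VV f v ≤ s * (Real.exp 4 * (θ * lN / Real.log v) * VV f w) :=
            mul_le_mul_of_nonneg_left hVv hs0.le
        _ = (Real.exp 4 * VV f w) * (s * (θ * lN / Real.log v)) := by ring
        _ ≤ (Real.exp 4 * VV f w) * (8 * Bs * θ) :=
            mul_le_mul_of_nonneg_left h1 (by positivity)
        _ = _ := by ring
    have hsV' : s * VV f v ≤ 546 / 10 * (8 * Bs * θ * VV f w) := by
      refine hsV.trans ?_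
      have h1 : 0 ≤ 8 * Bs * θ * VV f w := by positivity
      have h2 := mul_le_mul_of_nonneg_right exp_four.le h1
      linarith
    calc s * (((AA f m0 N).filter (fun m : ℕ => p ∣ val f m ∧ (∀ p' ∈ Qf f w, ¬ p' ∣ val f m) ∧
          ind N ω j0 (K * u) (val f m) = 1)).card : ℝ)
        ≤ s * (1001 / 1000 * ((N : ℝ) / PM f * gf f p * VV f v) + (f.natDegree : ℝ) *
      (Real.exp (Bs * Λ ^ 4 + Λ ^ 2) * ((N : ℝ) / p) ^ (1 / 4 : ℝ))) :=
          mul_le_mul_of_nonneg_left (hsub.trans hc) hs0.le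
      _ = 1001 / 1000 * ((N : ℝ) / PM f * gf f p * (s * VV f v)) + s * ((f.natDegree : ℝ) *
      (Real.exp (Bs * Λ ^ 4 + Λ ^ 2) * ((N : ℝ) / p) ^ (1 / 4 : ℝ))) := by ring
      _ ≤ 1001 / 1000 * ((N : ℝ) / PM f * gf f p * (546 / 10 * (8 * Bs * θ * VV f w))) +
          1 * ((f.natDegree : ℝ) *
      (Real.exp (Bs * Λ ^ 4 + Λ ^ 2) * ((N : ℝ) / p) ^ (1 / 4 : ℝ))) := by
          apply add_le_add
          · apply mul_le_mul_of_nonneg_left _ (by norm_num)
            exact mul_le_mul_of_nonneg_left hsV' hNPg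
          · exact mul_le_mul_of_nonneg_right q3 herr
      _ ≤ _ := by
          rw [one_mul]
          apply add_le_add_left
          have hM0 : 0 ≤ Bs * θ * ((N : ℝ) / PM f * gf f p) * VV f w := by positivity
          have e1 : 1001 / 1000 * ((N : ℝ) / PM f * gf f p * (546 / 10 * (8 * Bs * θ * VV f w)))
              = (1001 / 1000 * (546 / 10) * 8) *
                (Bs * θ * ((N : ℝ) / PM f * gf f p) * VV f w) := by ring
          have e2 : 438 * Bs * θ * ((N : ℝ) / PM f) * VV f w * gf f p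
              = 438 * (Bs * θ * ((N : ℝ) / PM f * gf f p) * VV f w) := by ring
          rw [e1, e2]
          apply mul_le_mul_of_nonneg_right _ hM0
          norm_num
  -- the densities
  have hdens : ∑ p ∈ S, gf f p ≤ 3 / K := by
    apply dens_le hK hu hj0 hω hj hε hNm hReg S
    intro p hp
    obtain ⟨hpp, hpl, hpv⟩ := hSm p hp
    apply in_box (by rw [← hlN]; exact hlN0) hN0 hω0 hpp
    · rw [n1]; exact hpl
    · rw [n2]
      refine lt_of_le_of_lt hpv ?_
      rw [hNx, hNx]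
      apply Real.exp_lt_exp.mpr
      have h1 := vd_low hA
      have h2 : 0 < 1 / (3 * Λ) := by positivity
      exact mul_lt_mul_of_pos_right (by linarith) hlN0
  calc _ ≤ ∑ p ∈ S, (438 * Bs * θ * ((N : ℝ) / PM f) * VV f w * gf f p +
        (f.natDegree : ℝ) * (Real.exp (Bs * Λ ^ 4 + Λ ^ 2) * ((N : ℝ) / p) ^ (1 / 4 : ℝ))) :=
        sum_le_sum one
    _ = 438 * Bs * θ * ((N : ℝ) / PM f) * VV f w * (∑ p ∈ S, gf f p) +
        ∑ p ∈ S, (f.natDegree : ℝ) *
          (Real.exp (Bs * Λ ^ 4 + Λ ^ 2) * ((N : ℝ) / p) ^ (1 / 4 : ℝ)) := by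
        rw [sum_add_distrib, mul_sum]
    _ ≤ _ := by
        apply add_le_add
        · have hM0 : 0 ≤ Bs * θ * ((N : ℝ) / PM f) * VV f w := by positivity
          have e1 : 438 * Bs * θ * ((N : ℝ) / PM f) * VV f w * (∑ p ∈ S, gf f p)
              ≤ 438 * Bs * θ * ((N : ℝ) / PM f) * VV f w * (3 / K) := by
            apply mul_le_mul_of_nonneg_left hdens
            positivity
          refine e1.trans ?_
          have e2 : 438 * Bs * θ * ((N : ℝ) / PM f) * VV f w * (3 / K)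
              = 1314 * (Bs * θ * ((N : ℝ) / PM f) * VV f w / K) := by ring
          have e3 : 1500 * Bs / K * θ * ((N : ℝ) / PM f) * VV f w
              = 1500 * (Bs * θ * ((N : ℝ) / PM f) * VV f w / K) := by ring
          rw [e2, e3]
          apply mul_le_mul_of_nonneg_right (by norm_num)
          positivity
        · exact err_total hA hBs hΛ3 hNn S (fun p hp => ⟨(hSm p hp).1, (hSm p hp).2.2⟩)

end Pool.Agent.Helper82.UP
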