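import Pool.Agent.Helper82.UP.Common

/-!
# Module NB of project UP (MP_d466de_nt)
-/

set_option autoImplicit false

noncomputable section

namespace Pool.Agent.Helper82.UP

open Finset Polynomial
open Pool.Agent.Helper9.UP

theorem hNB (hVR : StVR) (hCU : StCU) (hEX : StEX) : StNB := by
  intro Bs hBs
  obtain ⟨C, Λ1, hC1, hvr⟩ := hVR
  obtain ⟨Λ2, hΛ2, hex⟩ := hEX
  refine ⟨48 * Bs * (C + 1), max Λ1 (max Λ2 2), ?_⟩
  intro Λ hΛ f hA hlc hFL m0 N w hm0 hN1 hN2 hw
  have hΛ1 : Λ1 ≤ Λ := (le_max_left _ _).trans hΛ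
  have hΛ2' : Λ2 ≤ Λ := (le_max_left _ _).trans ((le_max_right _ _).trans hΛ)
  have hΛ3 : 2 ≤ Λ := (le_max_right _ _).trans ((le_max_right _ _).trans hΛ)
  have hBs0 : 0 < Bs := by linarith
  have hΛ0 : 0 < Λ := by linarith
  obtain ⟨lN, hlN⟩ : ∃ lN : ℝ, lN = Real.log N := ⟨_, rfl⟩
  rw [← hlN] at hN1 hN2
  obtain ⟨hL4, hL34, hL5', hlNb, hlNb', hlN0, hΛl⟩ := basics hBs hC1 hΛ3 hN1
  obtain ⟨hN0, hNn, hNexp, hNL⟩ := bigN hlN hlN0 hΛl hΛ3
  have hexp8 : lN ≤ Real.exp (Λ / 8) := hN2.trans (Real.exp_le_exp.mpr (by linarith))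
  have hexp4 : lN ≤ Real.exp (Λ / 4) := hN2.trans (Real.exp_le_exp.mpr (by linarith))
  -- the level `w`
  have hlt : Real.log ((N : ℝ) ^ (1 / (8 * Bs))) = lN / (8 * Bs) := by
    rw [Real.log_rpow hN0, ← hlN]; ring
  have hNt0 : 0 < (N : ℝ) ^ (1 / (8 * Bs)) := Real.rpow_pos_of_pos hN0 _
  have hl8 : 6 * Λ ^ 5 ≤ lN / (8 * Bs) := by
    rw [le_div_iff₀ (by positivity)]
    linarith
  have hfl := floor_log hNt0 (by rw [hlt]; linarith)
  rw [← hw, hlt] at hfl
  obtain ⟨hw1, hw2, hw3⟩ := hfl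
  have hwR : (2 : ℝ) ≤ w := by exact_mod_cast hw2
  have hl8N : lN / (8 * Bs) ≤ lN := div_le_self hlN0.le (by linarith)
  have hNt : 2 * Λ < (N : ℝ) ^ (1 / (8 * Bs)) := by
    have e1 := Real.add_one_le_exp (lN / (8 * Bs))
    rw [← hlt, Real.exp_log hNt0, hlt] at e1
    linarith
  have hwle : (w : ℝ) ≤ (N : ℝ) ^ (1 / (8 * Bs)) := by
    rw [hw]; exact Nat.floor_le hNt0.le
  obtain ⟨S, hS⟩ : ∃ S : Finset ℕ, S = (Nr f N (1 / (8 * Bs))).filter
    (fun p : ℕ => (N : ℝ) ^ (1 / (8 * Bs)) < (p : ℝ)) := ⟨_, rfl⟩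
  have hSm : ∀ p ∈ S, p ∈ range (N + 1) ∧ p.Prime ∧ (N : ℝ) ^ (1 / (8 * Bs)) < (p : ℝ) ∧
      (p : ℝ) ≤ (N : ℝ) ^ vd f := by
    intro p hp
    rw [hS, mem_filter] at hp
    have h1 := hp.1
    unfold Nr at h1
    rw [mem_filter] at h1
    exact ⟨h1.1, h1.2.1, hp.2, h1.2.2.2⟩
  rw [← hS]
  -- one prime
  have one : ∀ p ∈ S, (1 - Real.log p / Real.log N) *
      (((AA f m0 N).filter (fun m : ℕ => p ∣ val f m ∧ ∀ p' ∈ Qf f w, ¬ p' ∣ val f m)).card : ℝ) ≤
      55 * (gf f p * ((N : ℝ) / PM f) * VV f w) +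
        (f.natDegree : ℝ) * (Real.exp (Bs * Λ ^ 4 + Λ ^ 2) * ((N : ℝ) / p) ^ (1 / 4 : ℝ)) := by
    intro p hpS
    obtain ⟨-, hpp, hpl, hpv⟩ := hSm p hpS
    have hp0 : (0 : ℝ) < p := by exact_mod_cast hpp.pos
    obtain ⟨q1, q2, q3⟩ := pfacts hA (N := N) (by rw [← hlN]; exact hlN0) hpp hpv
    obtain ⟨s, hs⟩ : ∃ s : ℝ, s = 1 - Real.log p / Real.log N := ⟨_, rfl⟩
    rw [← hs] at q1 q2 q3 ⊢
    rw [← hlN] at q1
    have hs0 : 0 < s := lt_of_lt_of_le (by positivity) q2
    have hNp : (0 : ℝ) < (N : ℝ) / p := by positivity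
    have hz0 : 0 < ((N : ℝ) / p) ^ (1 / (4 * Bs)) := Real.rpow_pos_of_pos hNp _
    have hlz : Real.log (((N : ℝ) / p) ^ (1 / (4 * Bs))) = s * lN / (4 * Bs) := by
      rw [Real.log_rpow hNp, q1]; ring
    obtain ⟨h2z', hCv'⟩ := level hBs hC1 hΛ3 hN1 q2 hs0
    have h2z : 2 ≤ Real.log (((N : ℝ) / p) ^ (1 / (4 * Bs))) := by
      rw [hlz]; exact h2z'
    have hfl2 := floor_log hz0 h2z
    rw [hlz] at hfl2
    obtain ⟨v, hv⟩ : ∃ v : ℕ, v = ⌊((N : ℝ) / p) ^ (1 / (4 * Bs))⌋₊ := ⟨_, rfl⟩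
    rw [← hv] at hfl2
    obtain ⟨v1, v2, v3⟩ := hfl2
    have v3' : Bs * Real.log v ≤ Real.log ((N : ℝ) / p) / 4 := by
      rw [q1]
      have e1 : Bs * (s * lN / (4 * Bs)) = s * lN / 4 := by field_simp
      have e2 := mul_le_mul_of_nonneg_left v3 hBs0.le
      linarith
    have h2d : 2 * f.natDegree < p := by
      have e1 := hA.degLe
      have e2 : 2 * (f.natDegree : ℝ) < p := by linarith
      exact_mod_cast e2
    have hwp : w < p := by
      have : (w : ℝ) < p := by linarith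
      exact_mod_cast this
    have herr : 0 ≤ (f.natDegree : ℝ) *
        (Real.exp (Bs * Λ ^ 4 + Λ ^ 2) * ((N : ℝ) / p) ^ (1 / 4 : ℝ)) := by positivity
    have hNPg : 0 ≤ (N : ℝ) / PM f * gf f p := mul_nonneg (by positivity) (gf_nn f p)
    have hVw := VV_nn f w
    rcases le_or_gt w v with hwv | hwv
    · have hlw : Real.log w ≤ Real.log v :=
        Real.log_le_log (by linarith) (by exact_mod_cast hwv)
      have hB : Bs * Real.log w ≤ Real.log ((N : ℝ) / p) / 4 :=
        (mul_le_mul_of_nonneg_left hlw hBs0.le).trans v3'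
      have hl8' : Real.log w ≤ Real.exp (Λ / 8) := by linarith
      have hc := count_le hCU hA hlc hFL hm0 hNL hw2 hl8' (hex Λ hΛ2' f hA w hl8').1 hpp hwp h2d hB
      have hM0 : 0 ≤ (N : ℝ) / PM f * gf f p * VV f w := mul_nonneg hNPg hVw
      calc s * (((AA f m0 N).filter
            (fun m : ℕ => p ∣ val f m ∧ ∀ p' ∈ Qf f w, ¬ p' ∣ val f m)).card : ℝ)
          ≤ 1 * (((AA f m0 N).filter
            (fun m : ℕ => p ∣ val f m ∧ ∀ p' ∈ Qf f w, ¬ p' ∣ val f m)).card : ℝ) :=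
            mul_le_mul_of_nonneg_right q3 (by positivity)
        _ ≤ 1001 / 1000 * ((N : ℝ) / PM f * gf f p * VV f w) + _ := by
            rw [one_mul]; exact hc
        _ ≤ _ := by
            apply add_le_add_left
            have e1 : 55 * (gf f p * ((N : ℝ) / PM f) * VV f w)
                = 55 * ((N : ℝ) / PM f * gf f p * VV f w) := by ring
            rw [e1]
            exact mul_le_mul_of_nonneg_right (by norm_num) hM0
    · have hvR : (2 : ℝ) ≤ v := by exact_mod_cast v2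
      have hlv : Real.log v ≤ Real.log w :=
        Real.log_le_log (by linarith) (by exact_mod_cast hwv.le)
      have hl8' : Real.log v ≤ Real.exp (Λ / 8) := by linarith
      have hc := count_le hCU hA hlc hFL hm0 hNL v2 hl8' (hex Λ hΛ2' f hA v hl8').1 hpp
        (hwv.trans hwp) h2d v3'
      have hsub : (((AA f m0 N).filter
            (fun m : ℕ => p ∣ val f m ∧ ∀ p' ∈ Qf f w, ¬ p' ∣ val f m)).card : ℝ) ≤
          (((AA f m0 N).filter
            (fun m : ℕ => p ∣ val f m ∧ ∀ p' ∈ Qf f v, ¬ p' ∣ val f m)).card : ℝ) := by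
        have : ((AA f m0 N).filter
            (fun m : ℕ => p ∣ val f m ∧ ∀ p' ∈ Qf f w, ¬ p' ∣ val f m)).card ≤
          ((AA f m0 N).filter
            (fun m : ℕ => p ∣ val f m ∧ ∀ p' ∈ Qf f v, ¬ p' ∣ val f m)).card := by
          apply card_le_card
          intro m hm
          rw [mem_filter] at hm ⊢
          exact ⟨hm.1, hm.2.1, fun p' hp' => hm.2.2 p' (Qf_mono f hwv.le hp')⟩
        exact_mod_cast this
      have hCv : C * Λ ^ 3 ≤ Real.log v := hCv'.trans v1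
      have hlv0 : 0 < Real.log v := Real.log_pos (by linarith)
      have hr := hvr Λ hΛ1 f hA v w hCv hwv.le (by linarith)
      have hratio : s * (Real.log w / Real.log v) ≤ 1 := by
        rw [← mul_div_assoc, div_le_one hlv0]
        have e1 : s * Real.log w ≤ s * (lN / (8 * Bs)) := mul_le_mul_of_nonneg_left hw3 hs0.le
        have e2 : s * (lN / (8 * Bs)) = s * lN / (4 * Bs) / 2 := by
          field_simp
          ring
        linarith
      have hsV : s * VV f v ≤ Real.exp 4 * VV f w := by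
        calc s * VV f v ≤ s * (Real.exp 4 * (Real.log w / Real.log v) * VV f w) :=
              mul_le_mul_of_nonneg_left hr hs0.le
          _ = (Real.exp 4 * VV f w) * (s * (Real.log w / Real.log v)) := by ring
          _ ≤ (Real.exp 4 * VV f w) * 1 :=
              mul_le_mul_of_nonneg_left hratio (by positivity)
          _ = _ := mul_one _
      have hsV' : s * VV f v ≤ 546 / 10 * VV f w :=
        hsV.trans (mul_le_mul_of_nonneg_right exp_four.le hVw)
      calc s * (((AA f m0 N).filter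
            (fun m : ℕ => p ∣ val f m ∧ ∀ p' ∈ Qf f w, ¬ p' ∣ val f m)).card : ℝ)
          ≤ s * (1001 / 1000 * ((N : ℝ) / PM f * gf f p * VV f v) + (f.natDegree : ℝ) *
        (Real.exp (Bs * Λ ^ 4 + Λ ^ 2) * ((N : ℝ) / p) ^ (1 / 4 : ℝ))) :=
            mul_le_mul_of_nonneg_left (hsub.trans hc) hs0.le
        _ = 1001 / 1000 * ((N : ℝ) / PM f * gf f p * (s * VV f v)) + s * ((f.natDegree : ℝ) *
        (Real.exp (Bs * Λ ^ 4 + Λ ^ 2) * ((N : ℝ) / p) ^ (1 / 4 : ℝ))) := by ring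
        _ ≤ 1001 / 1000 * ((N : ℝ) / PM f * gf f p * (546 / 10 * VV f w)) +
            1 * ((f.natDegree : ℝ) *
        (Real.exp (Bs * Λ ^ 4 + Λ ^ 2) * ((N : ℝ) / p) ^ (1 / 4 : ℝ))) := by
            apply add_le_add
            · apply mul_le_mul_of_nonneg_left _ (by norm_num)
              exact mul_le_mul_of_nonneg_left hsV' hNPg
            · exact mul_le_mul_of_nonneg_right q3 herr
        _ ≤ _ := by
            rw [one_mul]
            apply add_le_add_left
            have hM0 : 0 ≤ (N : ℝ) / PM f * gf f p * VV f w := mul_nonneg hNPg hVw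
            have e1 : 55 * (gf f p * ((N : ℝ) / PM f) * VV f w)
                = 55 * ((N : ℝ) / PM f * gf f p * VV f w) := by ring
            have e2 : 1001 / 1000 * ((N : ℝ) / PM f * gf f p * (546 / 10 * VV f w))
                = (1001 / 1000 * (546 / 10)) * ((N : ℝ) / PM f * gf f p * VV f w) := by ring
            rw [e1, e2]
            exact mul_le_mul_of_nonneg_right (by norm_num) hM0
  calc _ ≤ ∑ p ∈ S, (55 * (gf f p * ((N : ℝ) / PM f) * VV f w) +
        (f.natDegree : ℝ) * (Real.exp (Bs * Λ ^ 4 + Λ ^ 2) * ((N : ℝ) / p) ^ (1 / 4 : ℝ))) :=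
        sum_le_sum one
    _ = ∑ p ∈ S, 55 * (gf f p * ((N : ℝ) / PM f) * VV f w) +
        ∑ p ∈ S, (f.natDegree : ℝ) *
          (Real.exp (Bs * Λ ^ 4 + Λ ^ 2) * ((N : ℝ) / p) ^ (1 / 4 : ℝ)) := sum_add_distrib
    _ ≤ _ := by
        apply add_le_add
        · have e1 : ∑ p ∈ S, 55 * (gf f p * ((N : ℝ) / PM f) * VV f w)
              = 55 * (∑ p ∈ S, gf f p) * ((N : ℝ) / PM f) * VV f w := by
            rw [mul_sum, sum_mul, sum_mul]
            apply sum_congr rfl
            intro p _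
            ring
          rw [e1]
          have e2 : ∑ p ∈ S, gf f p ≤ ∑ p ∈ (range (N + 1)).filter
              (fun p : ℕ => p.Prime ∧ (N : ℝ) ^ (1 / (8 * Bs)) < (p : ℝ)), gf f p := by
            apply sum_le_sum_of_subset_of_nonneg
            · intro p hp
              obtain ⟨h1, h2, h3, -⟩ := hSm p hp
              rw [mem_filter]
              exact ⟨h1, h2, h3⟩
            · intro p _ _
              exact gf_nn f p
          apply mul_le_mul_of_nonneg_right _ (VV_nn f w)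
          apply mul_le_mul_of_nonneg_right _ (by positivity)
          linarith
        · exact err_total hA hBs hΛ3 hNn S (fun p hp => ⟨(hSm p hp).2.1, (hSm p hp).2.2.2⟩)

end Pool.Agent.Helper82.UP
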